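import Pool.Agent.Y104.WL.Stm

/-!
# The destabilising norm (project WL of helper104)
-/

open Finset Module Matrix

set_option linter.unusedSectionVars false

namespace Pool.Agent.Y850.WL

open Pool.Agent.Y104.Kempf Pool.Agent.Y104.WL

universe u

theorem hm : S_HM.{u} := by
  classical
  intro ι _ _ b _ _ S _ _ c K _ _ Q ε hε1 hε hQ N hc hN hzz
  obtain ⟨z, hz, hz0⟩ := hzz
  let L := AlgebraicClosure K
  have hQd : ∀ j, IsUnit (Q j).det := fun j => (Matrix.isUnit_iff_isUnit_det _).1 (hQ j)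
  have hQi : ∀ j, Q j * (Q j)⁻¹ = 1 := fun j => Matrix.mul_nonsing_inv _ (hQd j)
  have hQi' : ∀ j, (Q j)⁻¹ * Q j = 1 := fun j => Matrix.nonsing_inv_mul _ (hQd j)
  have hBε : ∀ j, ((Q j)⁻¹)ᵀ = ε j • (Q j)⁻¹ := by
    intro j
    rw [Matrix.transpose_nonsing_inv, hε]
    refine Matrix.inv_eq_left_inv ?_
    rw [Matrix.smul_mul, Matrix.mul_smul, smul_smul, hε1, one_smul, hQi']
  let QL : ∀ j, Matrix (b j) (b j) L := fun j => (Q j).map (algebraMap K L)
  -- the tensors with dependent indices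
  let N' : Set ((∀ s, b (c s)) → K) := rst c '' N
  have hrz : rst c z ∈ N' := ⟨z, hz, rfl⟩
  have hrz0 : rst c z ≠ 0 := by
    intro h
    apply hz0
    funext I
    by_contra h1
    have h2 := hc z hz I h1
    have h3 := congrFun h (fun s => h2 s ▸ (I s).2)
    have h4 : ∀ (i : Σ j, b j) (j : ι) (h : i.1 = j), (⟨j, h ▸ i.2⟩ : Σ j, b j) = i := by
      rintro ⟨i, p⟩ j rfl
      rfl
    have h5 : (fun s => (⟨c s, h2 s ▸ (I s).2⟩ : Σ j, b j)) = I := funext fun s => h4 _ _ _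
    apply h1
    rw [← h5]
    exact h3
  -- destabilising filtrations
  obtain ⟨κ, _, ψ, h0, hh0, x, hx0, hxQ, hx⟩ := exists_res2 (B := fun j => (Q j)⁻¹) hBε hQi hc hN
  obtain ⟨h, hh, hbad, hbadQ⟩ := exists_alg2 ψ h0 hh0 {J : S → Σ j, b j | ∑ s, x (J s) ≤ 0}
    (N := N) (by
      intro J hJ z hz
      by_contra h1
      exact absurd (hx J ⟨z, hz, h1⟩) (not_lt.2 hJ)) Q
    (fun j p q => x ⟨j, p⟩ + x ⟨j, q⟩ < 0) (by
      intro j p q hpq
      by_contra h1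
      exact absurd (hxQ j p q h1) (not_le.2 hpq))
  have hli : ∀ j, LinearIndependent L (h j).row := fun j =>
    Matrix.linearIndependent_rows_iff_isUnit.2 (hh j)
  have hsp : ∀ j, ⊤ ≤ Submodule.span L (Set.range (h j).row) := by
    intro j
    rw [top_le_iff]
    refine (hli j).span_eq_top_of_card_eq_finrank' ?_
    rw [finrank_fintype_fun_eq_card]
  let e : ∀ j, Basis (b j) L (b j → L) := fun j => Basis.mk (hli j) (hsp j)
  have he : ∀ j p, e j p = h j p := fun j p => by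
    simp only [e]
    rw [Basis.mk_apply]
    rfl
  have hpos : ∀ J : ∀ s, b (c s), (∃ z ∈ N', ev z (fun s => e (c s) (J s)) ≠ 0) →
      0 < ∑ s, (x ⟨c s, J s⟩ : ℚ) := by
    rintro J ⟨_, ⟨z, hz, rfl⟩, hJ⟩
    by_contra h1
    push Not at h1
    apply hJ
    have h2 := hbad (fun s => ⟨c s, J s⟩) h1 z hz
    rw [← ev_rows h (hc z hz) J] at h2
    simp only [he]
    exact h2
  have hposQ : ∀ j p q, Rl QL e j p q → 0 ≤ x ⟨j, p⟩ + x ⟨j, q⟩ := by
    intro j p q hpq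
    by_contra h1
    push Not at h1
    apply hpq
    have h2 := hbadQ j p q h1
    rw [he, he]
    rw [← h2, Matrix.mul_assoc, Matrix.mul_apply]
    rfl
  -- scaling the weights
  let q : ℝ := (1 + ∑ i, (x i : ℝ) ^ 2)⁻¹
  have hq1 : (1 : ℝ) ≤ 1 + ∑ i, (x i : ℝ) ^ 2 := by
    have : (0 : ℝ) ≤ ∑ i, (x i : ℝ) ^ 2 := Finset.sum_nonneg fun _ _ => sq_nonneg _
    linarith
  have hq : 0 < q := inv_pos.2 (by linarith)
  have hCs : (fun i => -(q * (x i : ℝ))) ∈ Cset2 b (Rl QL e) := by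
    refine ⟨⟨fun j => ?_, ?_⟩, fun j p p' hR => ?_⟩
    · rw [Finset.sum_neg_distrib, ← Finset.mul_sum]
      have h1 : ∑ p, (x ⟨j, p⟩ : ℝ) = 0 := by exact_mod_cast congrArg (Rat.cast : ℚ → ℝ) (hx0 j)
      rw [h1, mul_zero, neg_zero]
    · simp only [neg_sq, mul_pow]
      rw [← Finset.mul_sum]
      set T := ∑ i, (x i : ℝ) ^ 2
      have hT : T ≤ 1 + T := by linarith
      have h1 : q * T ≤ 1 := by
        rw [← inv_mul_cancel₀ (show (1 + T) ≠ 0 by linarith)]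
        exact mul_le_mul_of_nonneg_left hT hq.le
      have h2 : q ≤ 1 := inv_le_one_of_one_le₀ hq1
      have h3 : 0 ≤ q * T := mul_nonneg hq.le (by linarith)
      nlinarith
    · have h1 := hposQ j p p' hR
      have h2 : (0 : ℝ) ≤ (x ⟨j, p⟩ : ℝ) + (x ⟨j, p'⟩ : ℝ) := by exact_mod_cast h1
      have h3 := mul_nonneg hq.le h2
      linarith
  let X : Finset (∀ s, b (c s)) := univ.filter fun J => ∃ z ∈ N',
    ev z (fun s => e (c s) (J s)) ≠ 0
  have hX : X.Nonempty := by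
    obtain ⟨J, hJ⟩ := exists_ev hrz hrz0 e
    exact ⟨J, mem_filter.2 ⟨mem_univ _, hJ⟩⟩
  have h1 : 0 < X.inf' hX fun J => q * ∑ s, (x ⟨c s, J s⟩ : ℝ) := by
    rw [Finset.lt_inf'_iff]
    intro J hJ
    have h2 := hpos J (mem_filter.1 hJ).2
    exact mul_pos hq (by exact_mod_cast h2)
  have hG : Ge N' (X.inf' hX fun J => q * ∑ s, (x ⟨c s, J s⟩ : ℝ))
      fun j => nrm (e j) (fun p => (fun i => -(q * (x i : ℝ))) ⟨j, p⟩) := by
    refine Ge.of_weights (ω := fun i => -(q * (x i : ℝ))) e fun J hJ => ?_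
    rw [Finset.sum_neg_distrib, neg_le_neg_iff, ← Finset.mul_sum]
    have hJX : J ∈ X := mem_filter.2 ⟨mem_univ _, hJ⟩
    have h5 := Finset.inf'_le (fun J : ∀ s, b (c s) => q * ∑ s, (x ⟨c s, J s⟩ : ℝ)) hJX
    beta_reduce at h5
    exact h5
  exact ⟨_, _, h1, Adm2.of_weights QL e hCs, hG⟩

end Pool.Agent.Y850.WL
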